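import Pool.Agent.P.MP_44948e_lc.Model

set_option autoImplicit false

namespace Pool.Agent.P.MP_44948e_lc

open Function Set

/-- Structures on the natural numbers with two binary relations. -/
abbrev Md : Type := (p : Σ _ : Bool, Fin 2 → ℕ) → Bool

/-- The two relations of a structure. -/
def rel (u : Md) (i : Bool) (a b : ℕ) : Prop := u ⟨i, ![a, b]⟩ = true

open Classical in
/-- The point of Cantor space coded by a structure. -/
noncomputable def dec (u : Md) (n : ℕ) : Bool :=
  decide (∃ a, ∃ L : List (Bool × ℕ), L.length = n ∧ Addr (rel u) ((true, 2) :: L) a)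

theorem measurable_rel (i : Bool) (a b : ℕ) : Measurable fun u : Md => rel u i a b := by
  have h : Measurable fun u : Md => u ⟨i, ![a, b]⟩ := measurable_pi_apply _
  exact (measurable_of_countable (fun t : Bool => t = true)).comp h

theorem measurable_root (a : ℕ) : Measurable fun u : Md => Root (rel u) a :=
  Measurable.forall fun i => Measurable.forall fun b => (measurable_rel i b a).not

theorem measurable_leaf (a : ℕ) : Measurable fun u : Md => Leaf (rel u) a :=
  Measurable.forall fun i => Measurable.forall fun b => (measurable_rel i a b).not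

theorem measurable_wt (a w : ℕ) : Measurable fun u : Md => Wt (rel u) a w :=
  Measurable.exists fun _ => measurable_const.and <| Measurable.forall fun b =>
    measurable_const.iff ((measurable_rel false a b).and (measurable_leaf b))

theorem measurable_addr : ∀ (L : List (Bool × ℕ)) (a : ℕ),
    Measurable fun u : Md => Addr (rel u) L a
  | [], a => measurable_root a
  | l :: L, a => (measurable_wt a l.2).and <| Measurable.exists fun b =>
      (measurable_rel l.1 b a).and (measurable_addr L b)

theorem measurable_dec : Measurable dec := by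
  classical
  refine measurable_pi_lambda _ fun n => ?_
  have h : Measurable fun u : Md =>
      ∃ a, ∃ L : List (Bool × ℕ), L.length = n ∧ Addr (rel u) ((true, 2) :: L) a :=
    Measurable.exists fun a => Measurable.exists fun L =>
      measurable_const.and (measurable_addr _ a)
  exact (measurable_of_countable (fun t : Prop => decide t)).comp h

theorem measurable_of_finite_dep {p : (ℕ → Bool) → Prop} (n : ℕ)
    (h : ∀ x y, p x → (∀ i < n, x i = y i) → p y) : Measurable p := by
  let G : (Fin n → Bool) → Prop := fun t => p fun i => if hi : i < n then t ⟨i, hi⟩ else false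
  have hp : p = G ∘ fun x (i : Fin n) => x i := by
    funext x
    refine propext ⟨fun hx => h _ _ hx fun i hi => by simp [hi],
      fun hx => h _ _ hx fun i hi => by simp [hi]⟩
  rw [hp]
  exact (measurable_of_countable G).comp (measurable_pi_lambda _ fun i => measurable_pi_apply _)

variable {π : (ℕ → ℕ) → (ℕ → Bool) × (ℕ → Bool)}

theorem measurable_valid (L : List (Bool × ℕ)) : Measurable fun x => Valid π x L :=
  measurable_of_finite_dep L.length fun _ _ h hxy => h.congr hxy

theorem measurable_ax : Measurable fun u : Md => Ax (rel u) (Valid π (dec u)) := by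
  have hV : ∀ L, Measurable fun u : Md => Valid π (dec u) L := fun L =>
    (measurable_valid L).comp measurable_dec
  have h : (fun u : Md => Ax (rel u) (Valid π (dec u))) = fun u : Md =>
      (∃ ρ, ∀ a, Root (rel u) a ↔ a = ρ) ∧
      (∀ i j a b c, rel u i a c → rel u j b c → i = j ∧ a = b) ∧
      (∀ a, ¬ Leaf (rel u) a → ∃ L, Addr (rel u) L a ∧ Valid π (dec u) L) ∧
      (∀ a, Leaf (rel u) a → ∃ b, rel u false b a ∧ ¬ Root (rel u) b) ∧
      (∀ a L i w, Addr (rel u) L a → ¬ Leaf (rel u) a → Valid π (dec u) ((i, w) :: L) →
        ∀ s : Finset ℕ, ∃ b, b ∉ s ∧ rel u i a b ∧ ¬ Leaf (rel u) b ∧ Wt (rel u) b w) := by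
    funext u
    exact propext ⟨fun h => ⟨h.1, h.2, h.3, h.4, h.5⟩,
      fun h => ⟨h.1, h.2.1, h.2.2.1, h.2.2.2.1, h.2.2.2.2⟩⟩
  rw [h]
  refine Measurable.and ?_ (Measurable.and ?_ (Measurable.and ?_ (Measurable.and ?_ ?_)))
  · exact Measurable.exists fun ρ => Measurable.forall fun a =>
      (measurable_root a).iff measurable_const
  · exact Measurable.forall fun i => Measurable.forall fun j => Measurable.forall fun a =>
      Measurable.forall fun b => Measurable.forall fun c =>
        (measurable_rel i a c).imp ((measurable_rel j b c).imp measurable_const)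
  · exact Measurable.forall fun a => (measurable_leaf a).not.imp <|
      Measurable.exists fun L => (measurable_addr L a).and (hV L)
  · exact Measurable.forall fun a => (measurable_leaf a).imp <|
      Measurable.exists fun b => (measurable_rel false b a).and (measurable_root b).not
  · exact Measurable.forall fun a => Measurable.forall fun L => Measurable.forall fun i =>
      Measurable.forall fun w => (measurable_addr L a).imp <| (measurable_leaf a).not.imp <|
        (hV _).imp <| Measurable.forall fun s => Measurable.exists fun b =>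
          measurable_const.and <| (measurable_rel i a b).and <|
            (measurable_leaf b).not.and (measurable_wt b w)

theorem dec_eq {u : Md} {x : ℕ → Bool} (h : Ax (rel u) (Valid π x)) : dec u = x := by
  classical
  funext n
  have := h.decode n
  unfold dec
  by_cases hx : x n = true
  · rw [hx]
    exact decide_eq_true (this.2 hx)
  · rw [Bool.eq_false_iff.2 hx]
    exact decide_eq_false fun h' => hx (this.1 h')

theorem measurable_nth {Y : Type} [MeasurableSpace Y] {p : Y → ℕ → Prop}
    (hp : ∀ m, Measurable fun y => p y m) (hinf : ∀ y, {m | p y m}.Infinite) (a : ℕ) :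
    Measurable fun y => Nat.nth (p y) a := by
  classical
  have hc : ∀ m, Measurable fun y => Nat.count (p y) m := by
    intro m
    induction m with
    | zero => simp
    | succ m ih =>
      simp only [Nat.count_succ]
      exact ih.add (Measurable.ite (measurableSet_setOfPred.2 (hp m)) measurable_const
        measurable_const)
  refine measurable_to_countable' fun m => ?_
  have : (fun y => Nat.nth (p y) a) ⁻¹' {m} =
      {y | p y m} ∩ (fun y => Nat.count (p y) m) ⁻¹' {a} := by
    ext y
    simp only [mem_preimage, mem_singleton_iff, mem_inter_iff, mem_ofPred_eq]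
    constructor
    · rintro rfl
      exact ⟨Nat.nth_mem_of_infinite (hinf y) a, Nat.count_nth_of_infinite (hinf y) a⟩
    · rintro ⟨h1, rfl⟩
      exact Nat.nth_count h1
  rw [this]
  exact (measurableSet_setOfPred.2 (hp m)).inter (hc m (measurableSet_singleton a))

/-- A Borel choice of a model for every point of Cantor space. -/
theorem exists_measurable_model :
    ∃ F : (ℕ → Bool) → Md, Measurable F ∧ ∀ x, Ax (rel (F x)) (Valid π x) := by
  classical
  obtain ⟨φ⟩ : Nonempty (ℕ ≃ Pt) := nonempty_equiv_of_countable
  let p : (ℕ → Bool) → ℕ → Prop := fun x m => Good (Valid π x) (φ m)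
  have hp : ∀ m, Measurable fun x => p x m := fun m =>
    (measurable_valid _).and measurable_const
  have hinf : ∀ x, {m | p x m}.Infinite := fun x =>
    (infinite_good (π := π) (x := x)).preimage (f := φ) (by simp)
  refine ⟨fun x q => decide (prel q.1 (φ (Nat.nth (p x) (q.2 0))) (φ (Nat.nth (p x) (q.2 1)))),
    ?_, fun x => ?_⟩
  · refine measurable_pi_lambda _ fun q => ?_
    exact (measurable_of_countable
      (fun t : ℕ × ℕ => decide (prel q.1 (φ t.1) (φ t.2)))).comp
      ((measurable_nth hp hinf _).prodMk (measurable_nth hp hinf _))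
  · let g : ℕ → {q : Pt // Good (Valid π x) q} := fun a =>
      ⟨φ (Nat.nth (p x) a), Nat.nth_mem_of_infinite (hinf x) a⟩
    have hg : Bijective g := by
      constructor
      · intro a b hab
        exact Nat.nth_injective (hinf x) (φ.injective (congrArg Subtype.val hab))
      · rintro ⟨q, hq⟩
        have h1 : p x (φ.symm q) := by simpa [p] using hq
        refine ⟨Nat.count (p x) (φ.symm q), Subtype.ext ?_⟩
        simp [g, Nat.nth_count h1]
    have := (ax_crel (π := π) (x := x)).comp (Equiv.ofBijective g hg)
    convert this using 1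
    funext i a b
    simp [rel, crel, g]

theorem epi_iff (u v : Md) (h : ℕ → ℕ) :
    (∀ p : (Σ _ : Bool, Fin 2 → ℕ), v p = u ⟨p.1, h ∘ p.2⟩) ↔
      ∀ i b c, rel v i b c ↔ rel u i (h b) (h c) := by
  have key : ∀ b c : ℕ, h ∘ ![b, c] = ![h b, h c] := by
    intro b c
    funext k
    fin_cases k <;> rfl
  constructor
  · intro H i b c
    unfold rel
    rw [H, key]
  · rintro H ⟨i, t⟩
    have ht : t = ![t 0, t 1] := by
      funext k
      fin_cases k <;> rfl
    have := H i (t 0) (t 1)
    unfold rel at this
    rw [← key, ← ht] at this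
    exact Bool.eq_iff_iff.2 this

theorem ax_perm {u : Md} {V : List (Bool × ℕ) → Prop} (h : Ax (rel u) V) (σ : Equiv.Perm ℕ) :
    Ax (rel fun p => u ⟨p.1, ⇑σ ∘ p.2⟩) V := by
  have := h.comp σ
  convert this using 1
  funext i a b
  exact propext ((epi_iff u _ σ).1 (fun _ => rfl) i a b)

/-- The main equivalence for the models. -/
theorem epi_iff_mem (hπ : Continuous π)
    (htr : ∀ x y z, (x, y) ∈ range π → (y, z) ∈ range π → (x, z) ∈ range π)
    {u v : Md} {x y : ℕ → Bool} (hu : Ax (rel u) (Valid π x)) (hv : Ax (rel v) (Valid π y))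
    (hx : (x, x) ∈ range π) :
    (∃ h : ℕ → ℕ, Surjective h ∧ ∀ p : (Σ _ : Bool, Fin 2 → ℕ), v p = u ⟨p.1, h ∘ p.2⟩) ↔
      (x, y) ∈ range π := by
  constructor
  · rintro ⟨h, hs, hh⟩
    have := chain_of_epi hπ hu hv hs ((epi_iff u v h).1 hh)
    clear hv hh
    induction this with
    | refl => exact hx
    | tail _ h2 ih => exact htr _ _ _ ih h2
  · rintro ⟨γ, hγ⟩
    obtain ⟨h, hs, hh⟩ := epi_of_witness hu hv hγ
    exact ⟨h, hs, (epi_iff u v h).2 hh⟩

end Pool.Agent.P.MP_44948e_lc
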