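import Mathlib

set_option autoImplicit false

namespace Pool.Agent.P.MP_44948e_lc

open Function Set

/-- Code of a column obtained by appending a link. -/
def cons (s : ℕ) (b : Bool) (w : ℕ) : ℕ := Nat.pair (Nat.pair s b.toNat) w + 1

/-- First component of the last link. -/
def hd1 (w : ℕ) : ℕ := (w - 1).unpair.1.unpair.1

/-- Second component of the last link. -/
def hd2 (w : ℕ) : Bool := decide ((w - 1).unpair.1.unpair.2 = 1)

/-- Column with the last link removed. -/
def tl (w : ℕ) : ℕ := (w - 1).unpair.2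

@[simp] theorem hd1_cons (s : ℕ) (b : Bool) (w : ℕ) : hd1 (cons s b w) = s := by
  simp [hd1, cons]

@[simp] theorem hd2_cons (s : ℕ) (b : Bool) (w : ℕ) : hd2 (cons s b w) = b := by
  cases b <;> simp [hd2, cons]

@[simp] theorem tl_cons (s : ℕ) (b : Bool) (w : ℕ) : tl (cons s b w) = w := by
  simp [tl, cons]

theorem lt_cons (s : ℕ) (b : Bool) (w : ℕ) : w < cons s b w :=
  Nat.lt_succ_of_le (Nat.right_le_pair _ _)

theorem tl_lt {w : ℕ} (h : w ≠ 0) : tl w < w := by
  have := Nat.unpair_right_le (w - 1)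
  unfold tl
  omega

section Chain

variable (π : (ℕ → ℕ) → (ℕ → Bool) × (ℕ → Bool))

/-- Finite approximation of: `π α = (x, y)`. -/
def S (n : ℕ) (x y : ℕ → Bool) (α : ℕ → ℕ) : Prop :=
  ∃ β : ℕ → ℕ, (∀ i < n, β i = α i) ∧ (∀ i < n, (π β).1 i = x i) ∧ (∀ i < n, (π β).2 i = y i)

/-- The first `n` columns `c` code a chain of approximate witnesses from `z` to `y`. -/
inductive Val (z : ℕ → Bool) (n : ℕ) : (ℕ → ℕ) → (ℕ → Bool) → Prop
  | base (c : ℕ → ℕ) (y : ℕ → Bool) : (∀ i < n, c i = 0 ∧ z i = y i) → Val z n c y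
  | step (c : ℕ → ℕ) (y : ℕ → Bool) : (∀ i < n, c i ≠ 0) →
      S π n (fun i => hd2 (c i)) y (fun i => hd1 (c i)) →
      Val z n (fun i => tl (c i)) (fun i => hd2 (c i)) → Val z n c y

variable {π}

theorem S.congr {n m : ℕ} {x y x' y' : ℕ → Bool} {α α' : ℕ → ℕ} (h : S π n x y α) (hm : m ≤ n)
    (hx : ∀ i < m, x i = x' i) (hy : ∀ i < m, y i = y' i) (hα : ∀ i < m, α i = α' i) :
    S π m x' y' α' := by
  obtain ⟨β, h1, h2, h3⟩ := h
  refine ⟨β, fun i hi => ?_, fun i hi => ?_, fun i hi => ?_⟩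
  · rw [h1 i (by omega), hα i hi]
  · rw [h2 i (by omega), hx i hi]
  · rw [h3 i (by omega), hy i hi]

theorem Val.congr {z : ℕ → Bool} {n : ℕ} {c : ℕ → ℕ} {y : ℕ → Bool} (h : Val π z n c y)
    {m : ℕ} (hm : m ≤ n) {z' : ℕ → Bool} (hz : ∀ i < m, z i = z' i) :
    ∀ {c' : ℕ → ℕ} {y' : ℕ → Bool}, (∀ i < m, c i = c' i) → (∀ i < m, y i = y' i) →
      Val π z' m c' y' := by
  induction h with
  | base c y h =>
    intro c' y' hc hy
    refine Val.base _ _ fun i hi => ?_
    rw [← hc i hi, ← hz i hi, ← hy i hi]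
    exact h i (by omega)
  | step c y h1 h2 _ ih =>
    intro c' y' hc hy
    refine Val.step _ _ (fun i hi => ?_) ?_ ?_
    · rw [← hc i hi]
      exact h1 i (by omega)
    · exact h2.congr hm (fun i hi => by rw [hc i hi]) hy (fun i hi => by rw [hc i hi])
    · exact ih (fun i hi => congrArg tl (hc i hi)) (fun i hi => congrArg hd2 (hc i hi))

theorem eq_of_S (hπ : Continuous π) {x y : ℕ → Bool} {α : ℕ → ℕ} (h : ∀ n, S π n x y α) :
    π α = (x, y) := by
  choose β h1 h2 h3 using h
  have hβ : Filter.Tendsto β Filter.atTop (nhds α) := by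
    rw [tendsto_pi_nhds]
    intro i
    refine tendsto_const_nhds.congr' ?_
    filter_upwards [Filter.eventually_gt_atTop i] with n hn
    exact (h1 n i hn).symm
  have hA : Filter.Tendsto (fun n => π (β n)) Filter.atTop (nhds (π α)) :=
    (hπ.tendsto α).comp hβ
  have hB : Filter.Tendsto (fun n => π (β n)) Filter.atTop (nhds (x, y)) := by
    refine Filter.Tendsto.prodMk_nhds (mx := fun n => (π (β n)).1)
      (my := fun n => (π (β n)).2) ?_ ?_
    · rw [tendsto_pi_nhds]
      intro i
      refine tendsto_const_nhds.congr' ?_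
      filter_upwards [Filter.eventually_gt_atTop i] with n hn
      exact (h2 n i hn).symm
    · rw [tendsto_pi_nhds]
      intro i
      refine tendsto_const_nhds.congr' ?_
      filter_upwards [Filter.eventually_gt_atTop i] with n hn
      exact (h3 n i hn).symm
  exact tendsto_nhds_unique hA hB

/-- An infinite branch of valid columns gives a finite chain of witnesses. -/
theorem chain_of_val (hπ : Continuous π) (z : ℕ → Bool) :
    ∀ (k : ℕ) (c : ℕ → ℕ) (y : ℕ → Bool), c 0 = k → (∀ n, Val π z n c y) →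
      Relation.ReflTransGen (fun a b => (a, b) ∈ range π) z y := by
  intro k
  induction k using Nat.strong_induction_on with
  | _ k ih =>
    intro c y hk h
    by_cases h0 : c 0 = 0
    · have : z = y := by
        funext i
        cases h (i + 1) with
        | base _ _ h1 => exact (h1 i (by omega)).2
        | step _ _ h1 _ _ => exact absurd h0 (h1 0 (by omega))
      rw [this]
    · have h1 : ∀ n, S π n (fun i => hd2 (c i)) y (fun i => hd1 (c i)) ∧
          Val π z n (fun i => tl (c i)) (fun i => hd2 (c i)) := by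
        intro n
        cases h (n + 1) with
        | base _ _ h1 => exact absurd (h1 0 (by omega)).1 h0
        | step _ _ _ h2 h3 =>
          exact ⟨h2.congr (by omega) (fun _ _ => rfl) (fun _ _ => rfl) (fun _ _ => rfl),
            h3.congr (by omega) (fun _ _ => rfl) (fun _ _ => rfl) (fun _ _ => rfl)⟩
      have h2 := ih (tl (c 0)) (hk ▸ tl_lt h0) (fun i => tl (c i)) (fun i => hd2 (c i)) rfl
        (fun n => (h1 n).2)
      exact h2.tail ⟨_, eq_of_S hπ fun n => (h1 n).1⟩

end Chain

/-- The label at depth `i` of an address (addresses are listed from the node up to the root). -/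
def lab : List (Bool × ℕ) → ℕ → Bool × ℕ
  | [], _ => (false, 0)
  | l :: L, i => if i = L.length then l else lab L i

theorem lab_cons_lt (l : Bool × ℕ) (L : List (Bool × ℕ)) {i : ℕ} (h : i < L.length) :
    lab (l :: L) i = lab L i := by
  simp [lab, h.ne]

theorem lab_cons_self (l : Bool × ℕ) (L : List (Bool × ℕ)) : lab (l :: L) L.length = l := by
  simp [lab]

section Addresses

variable (π : (ℕ → ℕ) → (ℕ → Bool) × (ℕ → Bool))

/-- Real addresses. -/
def Real (x : ℕ → Bool) (L : List (Bool × ℕ)) : Prop :=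
  (∀ l ∈ L, 2 ≤ l.2) ∧ Val π (fun i => (lab L i).1) L.length (fun i => (lab L i).2 - 2) x

/-- Valid addresses: a real address followed by dummy labels. -/
def Valid (x : ℕ → Bool) : List (Bool × ℕ) → Prop
  | [] => True
  | l :: L => (l.2 = 1 ∧ Valid x L) ∨ Real π x (l :: L)

variable {π}

theorem real_nil (x : ℕ → Bool) : Real π x [] :=
  ⟨by simp, Val.base _ _ (by simp)⟩

theorem Real.tail {x : ℕ → Bool} {l : Bool × ℕ} {L : List (Bool × ℕ)} (h : Real π x (l :: L)) :
    Real π x L := by
  refine ⟨fun l' hl' => h.1 l' (List.mem_cons_of_mem _ hl'), ?_⟩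
  refine h.2.congr (by simp) (fun i hi => ?_) (fun i hi => ?_) (fun _ _ => rfl)
  · rw [lab_cons_lt _ _ hi]
  · rw [lab_cons_lt _ _ hi]

theorem Real.valid {x : ℕ → Bool} : ∀ {L : List (Bool × ℕ)}, Real π x L → Valid π x L
  | [], _ => trivial
  | _ :: _, h => Or.inr h

theorem Valid.tail {x : ℕ → Bool} {l : Bool × ℕ} {L : List (Bool × ℕ)} (h : Valid π x (l :: L)) :
    Valid π x L := by
  rcases h with h | h
  · exact h.2
  · exact h.tail.valid

theorem Valid.real {x : ℕ → Bool} {l : Bool × ℕ} {L : List (Bool × ℕ)} (h : Valid π x (l :: L))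
    (hl : l.2 ≠ 1) : Real π x (l :: L) := by
  rcases h with h | h
  · exact absurd h.1 hl
  · exact h

theorem Valid.one_le {x : ℕ → Bool} {l : Bool × ℕ} {L : List (Bool × ℕ)}
    (h : Valid π x (l :: L)) : 1 ≤ l.2 := by
  rcases h with h | h
  · omega
  · have := h.1 l (by simp)
    omega

theorem Valid.dummy {x : ℕ → Bool} {L : List (Bool × ℕ)} (h : Valid π x L) (i : Bool) :
    Valid π x ((i, 1) :: L) := Or.inl ⟨rfl, h⟩

theorem Real.congr {x y : ℕ → Bool} {L : List (Bool × ℕ)} (h : Real π x L)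
    (hxy : ∀ i < L.length, x i = y i) : Real π y L :=
  ⟨h.1, h.2.congr le_rfl (fun _ _ => rfl) (fun _ _ => rfl) hxy⟩

theorem Valid.congr {x y : ℕ → Bool} : ∀ {L : List (Bool × ℕ)}, Valid π x L →
    (∀ i < L.length, x i = y i) → Valid π y L
  | [], _, _ => trivial
  | l :: L, h, hxy => by
      rcases h with h | h
      · exact Or.inl ⟨h.1, h.2.congr fun i hi => hxy i (by simp; omega)⟩
      · exact Or.inr (h.congr hxy)

/-- Append the link `(α, x)` to every column of an address. -/
def ext (α : ℕ → ℕ) (x : ℕ → Bool) : List (Bool × ℕ) → List (Bool × ℕ)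
  | [] => []
  | l :: L => (l.1, 2 + cons (α L.length) (x L.length) (l.2 - 2)) :: ext α x L

@[simp] theorem length_ext (α : ℕ → ℕ) (x : ℕ → Bool) :
    ∀ L : List (Bool × ℕ), (ext α x L).length = L.length
  | [] => rfl
  | _ :: L => by simp [ext, length_ext α x L]

theorem lab_ext (α : ℕ → ℕ) (x : ℕ → Bool) : ∀ (L : List (Bool × ℕ)) (i : ℕ), i < L.length →
    lab (ext α x L) i = ((lab L i).1, 2 + cons (α i) (x i) ((lab L i).2 - 2))
  | [], _, h => by simp at h
  | l :: L, i, h => by
      by_cases hi : i = L.length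
      · subst hi
        simp [ext, lab]
      · have hi' : i < L.length := by simp at h; omega
        simp only [ext, lab, length_ext, hi, if_false]
        exact lab_ext α x L i hi'

theorem two_le_ext (α : ℕ → ℕ) (x : ℕ → Bool) :
    ∀ (L : List (Bool × ℕ)), ∀ l ∈ ext α x L, 2 ≤ l.2
  | [], l, h => by simp [ext] at h
  | l' :: L, l, h => by
      simp only [ext, List.mem_cons] at h
      rcases h with h | h
      · rw [h]; simp
      · exact two_le_ext α x L l h

theorem Real.ext {x y : ℕ → Bool} {α : ℕ → ℕ} (hα : π α = (x, y)) {L : List (Bool × ℕ)}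
    (h : Real π x L) : Real π y (ext α x L) := by
  refine ⟨two_le_ext α x L, ?_⟩
  rw [length_ext]
  refine Val.step _ _ (fun i hi => ?_) ?_ ?_
  · rw [lab_ext _ _ _ _ hi]
    have := lt_cons (α i) (x i) ((lab L i).2 - 2)
    simp only
    omega
  · refine ⟨α, fun i hi => ?_, fun i hi => ?_, fun i hi => ?_⟩
    · simp [lab_ext _ _ _ _ hi]
    · simp [lab_ext _ _ _ _ hi, hα]
    · simp [hα]
  · refine h.2.congr le_rfl (fun i hi => ?_) (fun i hi => ?_) (fun i hi => ?_)
    · simp [lab_ext _ _ _ _ hi]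
    · simp [lab_ext _ _ _ _ hi]
    · simp [lab_ext _ _ _ _ hi]

/-- The address of the depth `n` node with labels `l 0, …, l (n-1)`. -/
def mkAddr (l : ℕ → Bool × ℕ) : ℕ → List (Bool × ℕ)
  | 0 => []
  | n + 1 => l n :: mkAddr l n

@[simp] theorem length_mkAddr (l : ℕ → Bool × ℕ) : ∀ n, (mkAddr l n).length = n
  | 0 => rfl
  | n + 1 => by simp [mkAddr, length_mkAddr l n]

theorem lab_mkAddr (l : ℕ → Bool × ℕ) : ∀ n i, i < n → lab (mkAddr l n) i = l i
  | 0, _, h => by simp at h
  | n + 1, i, h => by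
      by_cases hi : i = n
      · subst hi
        simp [mkAddr, lab]
      · simp only [mkAddr, lab, length_mkAddr, hi, if_false]
        exact lab_mkAddr l n i (by omega)

theorem mem_mkAddr (l : ℕ → Bool × ℕ) : ∀ n, ∀ a ∈ mkAddr l n, ∃ i, a = l i
  | 0, a, h => by simp [mkAddr] at h
  | n + 1, a, h => by
      simp only [mkAddr, List.mem_cons] at h
      rcases h with h | h
      · exact ⟨n, h⟩
      · exact mem_mkAddr l n a h

theorem real_std (x : ℕ → Bool) (n : ℕ) : Real π x (mkAddr (fun i => (x i, 2)) n) := by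
  refine ⟨fun l hl => ?_, ?_⟩
  · obtain ⟨i, rfl⟩ := mem_mkAddr _ _ _ hl
    exact le_rfl
  · refine Val.base _ _ fun i hi => ?_
    rw [length_mkAddr] at hi
    simp [lab_mkAddr _ _ _ hi]

theorem Real.head_two {x : ℕ → Bool} {i : Bool} {L : List (Bool × ℕ)}
    (h : Real π x ((i, 2) :: L)) : x L.length = i := by
  have h2 := h.2
  cases h2 with
  | base _ _ h1 =>
    have := (h1 L.length (by simp)).2
    rw [lab_cons_self] at this
    exact this.symm
  | step _ _ h1 _ _ =>
    have := h1 L.length (by simp)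
    simp [lab_cons_self] at this

theorem chain_of_valid (hπ : Continuous π) {y : ℕ → Bool} (l : ℕ → Bool × ℕ)
    (h2 : ∀ i, 2 ≤ (l i).2) (h : ∀ n, Valid π y (mkAddr l n)) :
    Relation.ReflTransGen (fun a b => (a, b) ∈ range π) (fun i => (l i).1) y := by
  refine chain_of_val hπ _ _ (fun i => (l i).2 - 2) y rfl fun n => ?_
  have h1 : Real π y (mkAddr l (n + 1)) := Valid.real (h (n + 1)) (by have := h2 n; omega)
  have h3 := h1.2
  rw [length_mkAddr] at h3
  refine h3.congr (by omega) (fun i hi => ?_) (fun i hi => ?_) (fun _ _ => rfl)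
  · rw [lab_mkAddr _ _ _ (by omega)]
  · rw [lab_mkAddr _ _ _ (by omega)]

end Addresses

end Pool.Agent.P.MP_44948e_lc
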