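import Pool.Agent.P.MP_44948e_lc.Tree
import Pool.Agent.P.MP_44948e_lc.Chain

set_option autoImplicit false

namespace Pool.Agent.P.MP_44948e_lc

open Function Set

theorem exists_bijOn_of_infinite {α β : Type} [Countable α] [Countable β] {A : Set α} {B : Set β}
    (hA : A.Infinite) (hB : B.Infinite) : ∃ s : β → α, BijOn s B A := by
  classical
  have := hA.to_subtype
  have := hB.to_subtype
  obtain ⟨e⟩ : Nonempty (B ≃ A) := nonempty_equiv_of_countable
  obtain ⟨a0, _⟩ := hA.nonempty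
  refine ⟨fun b => if h : b ∈ B then (e ⟨b, h⟩ : α) else a0, ?_, ?_, ?_⟩
  · intro b hb
    simp only [dif_pos hb]
    exact (e ⟨b, hb⟩).2
  · intro b hb b' hb' h
    simp only [dif_pos hb, dif_pos hb'] at h
    have := e.injective (Subtype.ext h)
    exact congrArg Subtype.val this
  · intro a ha
    refine ⟨(e.symm ⟨a, ha⟩ : β), (e.symm ⟨a, ha⟩).2, ?_⟩
    simp only [dif_pos (e.symm ⟨a, ha⟩).2]
    simp

theorem exists_surjOn_of_card {α β : Type} (a0 : α) (s : Finset α) (t : Finset β)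
    (h : s.card ≤ t.card) (h0 : s.card = 0 → t.card = 0) :
    ∃ f : β → α, MapsTo f (t : Set β) (s : Set α) ∧ SurjOn f (t : Set β) (s : Set α) := by
  classical
  rcases s.eq_empty_or_nonempty with hs | ⟨a1, ha1⟩
  · subst hs
    have : t = ∅ := Finset.card_eq_zero.mp (h0 rfl)
    subst this
    exact ⟨fun _ => a0, by simp, by simp⟩
  · obtain ⟨j⟩ : Nonempty (s ↪ t) := Function.Embedding.nonempty_of_card_le (by simpa using h)
    refine ⟨fun b => if hb : ∃ a : s, (j a : β) = b then (hb.choose : α) else a1, ?_, ?_⟩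
    · intro b _
      by_cases hb : ∃ a : s, (j a : β) = b
      · simp only [dif_pos hb]
        exact hb.choose.2
      · simp only [dif_neg hb]
        exact ha1
    · intro a ha
      have hb : ∃ a' : s, (j a' : β) = (j ⟨a, ha⟩ : β) := ⟨_, rfl⟩
      refine ⟨(j ⟨a, ha⟩ : β), (j ⟨a, ha⟩).2, ?_⟩
      simp only [dif_pos hb]
      have := j.injective (Subtype.ext hb.choose_spec)
      rw [this]

theorem infinite_of_forall_finset {α : Type} {A : Set α} (h : ∀ s : Finset α, ∃ b, b ∉ s ∧ b ∈ A) :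
    A.Infinite := by
  intro hA
  obtain ⟨b, hb, hb'⟩ := h hA.toFinset
  exact hb (by simpa using hb')

/-- Weight of the head of an address. -/
def hw : List (Bool × ℕ) → ℕ
  | [] => 0
  | l :: _ => l.2

section One

variable {α : Type} {r : Bool → α → α → Prop} {V : List (Bool × ℕ) → Prop}

theorem Ax.wt_head (hA : Ax r V) : ∀ {L : List (Bool × ℕ)} {a : α}, Addr r L a → Wt r a (hw L)
  | [], a, h => by
      refine ⟨∅, rfl, fun b => ⟨by simp, ?_⟩⟩
      rintro ⟨h1, h2⟩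
      obtain ⟨b', hb', hr⟩ := hA.leaf b h2
      rw [(hA.uniq _ _ _ _ _ hb' h1).2] at hr
      exact absurd h hr
  | _ :: _, _, h => h.1

theorem Ax.valid_of_addr (hA : Ax r V) {L : List (Bool × ℕ)} {a : α} (h : Addr r L a)
    (hl : ¬ Leaf r a) : V L := by
  obtain ⟨L', h1, h2⟩ := hA.node a hl
  rw [Addr.unique hA _ _ _ h h1]
  exact h2

theorem Ax.exists_wt (hA : Ax r V) {a : α} (hl : ¬ Leaf r a) : ∃ w, Wt r a w := by
  obtain ⟨L', h1, _⟩ := hA.node a hl
  exact ⟨_, hA.wt_head h1⟩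

theorem Ax.infinite (hA : Ax r V) {L : List (Bool × ℕ)} {a : α} {i : Bool} {w : ℕ}
    (h : Addr r L a) (hl : ¬ Leaf r a) (hV : V ((i, w) :: L)) :
    {d | r i a d ∧ ¬ Leaf r d ∧ Wt r d w}.Infinite :=
  infinite_of_forall_finset fun s => hA.many a L i w h hl hV s

theorem Ax.colour_leaf (hA : Ax r V) {i : Bool} {a b : α} (h : r i a b) (hl : Leaf r b) :
    i = false := by
  obtain ⟨b', hb', _⟩ := hA.leaf b hl
  exact (hA.uniq _ _ _ _ _ h hb').1

theorem Ax.not_leaf_root (hA : Ax r V) {a : α} (h : Root r a) : ¬ Leaf r a := by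
  intro hl
  obtain ⟨b', hb', _⟩ := hA.leaf a hl
  exact h _ _ hb'

end One

variable {π : (ℕ → ℕ) → (ℕ → Bool) × (ℕ → Bool)}

/-- The branch of weight two nodes. -/
theorem Ax.exists_branch {α : Type} {r : Bool → α → α → Prop} {x : ℕ → Bool}
    (hA : Ax r (Valid π x)) :
    ∃ a : ℕ → α, Root r (a 0) ∧ ∀ n, r (x n) (a n) (a (n + 1)) ∧ Wt r (a (n + 1)) 2 ∧
      Addr r (mkAddr (fun i => (x i, 2)) n) (a n) := by
  obtain ⟨ρ, hρ⟩ := hA.root
  have hρ' : Root r ρ := (hρ ρ).2 rfl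
  have step : ∀ n a, Addr r (mkAddr (fun i => (x i, 2)) n) a ∧ ¬ Leaf r a →
      ∃ b, r (x n) a b ∧ Wt r b 2 := by
    intro n a ha
    obtain ⟨b, _, h1, _, h3⟩ := hA.many a _ (x n) 2 ha.1 ha.2 (real_std x (n + 1)).valid ∅
    exact ⟨b, h1, h3⟩
  have : Nonempty α := ⟨ρ⟩
  choose! g hg using step
  let a : ℕ → α := fun n => Nat.rec ρ (fun n a => g n a) n
  have ha : ∀ n, Addr r (mkAddr (fun i => (x i, 2)) n) (a n) ∧ ¬ Leaf r (a n) := by
    intro n
    induction n with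
    | zero => exact ⟨hρ', hA.not_leaf_root hρ'⟩
    | succ n ih =>
      obtain ⟨h1, h2⟩ := hg n (a n) ih
      exact ⟨⟨h2, a n, h1, ih.1⟩, h2.not_leaf (by omega)⟩
  exact ⟨a, hρ', fun n => ⟨(hg n (a n) (ha n)).1, (hg n (a n) (ha n)).2, (ha n).1⟩⟩

/-- The point `x` can be read off the tree. -/
theorem Ax.decode {α : Type} {r : Bool → α → α → Prop} {x : ℕ → Bool}
    (hA : Ax r (Valid π x)) (n : ℕ) :
    (∃ a, ∃ L : List (Bool × ℕ), L.length = n ∧ Addr r ((true, 2) :: L) a) ↔ x n = true := by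
  constructor
  · rintro ⟨a, L, rfl, h⟩
    have h1 : Valid π x ((true, 2) :: L) := hA.valid_of_addr h (h.1.not_leaf (by simp))
    exact (h1.real (by simp)).head_two
  · intro hx
    obtain ⟨a, _, h⟩ := hA.exists_branch
    refine ⟨a (n + 1), mkAddr (fun i => (x i, 2)) n, by simp, ?_⟩
    have := (h (n + 1)).2.2
    simp only [mkAddr, hx] at this
    exact this

/-- An epimorphism yields a chain of witnesses. -/
theorem chain_of_epi (hπ : Continuous π) {α β : Type} {ru : Bool → α → α → Prop}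
    {rv : Bool → β → β → Prop} {x y : ℕ → Bool} (hu : Ax ru (Valid π x)) (hv : Ax rv (Valid π y))
    {h : β → α} (hs : Surjective h) (hh : ∀ i b c, rv i b c ↔ ru i (h b) (h c)) :
    Relation.ReflTransGen (fun a b => (a, b) ∈ range π) x y := by
  classical
  obtain ⟨a, ha0, ha⟩ := hu.exists_branch
  choose b hb using fun n => hs (a n)
  have hr : ∀ n, rv (x n) (b n) (b (n + 1)) := fun n => by
    rw [hh, hb, hb]
    exact (ha n).1
  have hnl : ∀ n, ¬ Leaf rv (b n) := fun n => not_leaf_of_rel (hr n)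
  choose w hw using fun n => hv.exists_wt (hnl (n + 1))
  have h2 : ∀ n, 2 ≤ w n := by
    intro n
    obtain ⟨s, hs1, hs2⟩ := (ha n).2.1
    obtain ⟨t, ht1, ht2⟩ := hw n
    rw [← hs1, ← ht1]
    refine le_trans (Finset.card_le_card (t := t.image h) fun d hd => ?_) Finset.card_image_le
    obtain ⟨c, rfl⟩ := hs d
    obtain ⟨h1, h3⟩ := (hs2 _).1 hd
    refine Finset.mem_image_of_mem _ ((ht2 c).2 ⟨?_, ?_⟩)
    · rw [hh, hb]
      exact h1
    · intro i c' hc'
      exact h3 i _ ((hh _ _ _).1 hc')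
  have hA : ∀ n, Addr rv (mkAddr (fun i => (x i, w i)) n) (b n) := by
    intro n
    induction n with
    | zero =>
      intro i c hc
      rw [hh, hb] at hc
      exact ha0 _ _ hc
    | succ n ih => exact ⟨hw n, b n, hr n, ih⟩
  exact chain_of_valid hπ (fun i => (x i, w i)) h2 fun n => hv.valid_of_addr (hA n) (hnl n)

/-- A witness yields an epimorphism. -/
theorem epi_of_witness {α β : Type} [Countable α] [Countable β] {ru : Bool → α → α → Prop}
    {rv : Bool → β → β → Prop} {x y : ℕ → Bool} (hu : Ax ru (Valid π x)) (hv : Ax rv (Valid π y))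
    {γ : ℕ → ℕ} (hγ : π γ = (x, y)) :
    ∃ h : β → α, Surjective h ∧ ∀ i b c, rv i b c ↔ ru i (h b) (h c) := by
  classical
  refine exists_epi hu hv (fun b a => (Leaf rv b ∧ Leaf ru a) ∨ (¬ Leaf rv b ∧ ¬ Leaf ru a ∧
    ∃ L L', Addr ru L a ∧ Addr rv L' b ∧ L'.length = L.length ∧
      (Real π x L → L' = ext γ x L))) ?_ ?_
  · intro b a hb ha
    exact Or.inr ⟨hv.not_leaf_root hb, hu.not_leaf_root ha, [], [], ha, hb, rfl, fun _ => rfl⟩
  rintro b a (⟨hb, ha⟩ | ⟨hb, ha, L, L', hL, hL', hlen, hext⟩)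
  · exact ⟨fun _ => a, fun i c hc => absurd hc (hb _ _), fun i c hc => absurd hc (ha _ _),
      fun i _ c _ hc => absurd hc (hb _ _)⟩
  have hVL : Valid π x L := hu.valid_of_addr hL ha
  have hVL' : Valid π y L' := hv.valid_of_addr hL' hb
  let E : ℕ → ℕ := fun w => 2 + cons (γ L.length) (x L.length) (w - 2)
  let T : Bool → ℕ → ℕ → Prop := fun i w' w =>
    (Real π x ((i, w) :: L) ∧ w' = E w) ∨ (w = 1 ∧ ¬ ∃ w0, Real π x ((i, w0) :: L) ∧ w' = E w0)
  have hT1 : ∀ i w', ∃ w, T i w' w := by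
    intro i w'
    by_cases h : ∃ w0, Real π x ((i, w0) :: L) ∧ w' = E w0
    · obtain ⟨w0, h⟩ := h
      exact ⟨w0, Or.inl h⟩
    · exact ⟨1, Or.inr ⟨rfl, h⟩⟩
  have hT2 : ∀ i w' w1 w2, T i w' w1 → T i w' w2 → w1 = w2 := by
    rintro i w' w1 w2 (h1 | h1) (h2 | h2)
    · have h3 : 2 ≤ w1 := h1.1.1 (i, w1) (by simp)
      have h4 : 2 ≤ w2 := h2.1.1 (i, w2) (by simp)
      have h5 : cons (γ L.length) (x L.length) (w1 - 2) = cons (γ L.length) (x L.length) (w2 - 2) := by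
        have := h1.2.symm.trans h2.2
        simp only [E] at this
        omega
      have h6 := congrArg tl h5
      simp only [tl_cons] at h6
      omega
    · exact absurd ⟨w1, h1⟩ h2.2
    · exact absurd ⟨w2, h2⟩ h1.2
    · rw [h1.1, h2.1]
  have hT3 : ∀ i w' w, T i w' w → Valid π x ((i, w) :: L) := by
    rintro i w' w (h | h)
    · exact h.1.valid
    · rw [h.1]
      exact hVL.dummy i
  let A : Bool × ℕ → Set α := fun k => {d | ru k.1 a d ∧ ¬ Leaf ru d ∧ Wt ru d k.2}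
  let A' : Bool × ℕ → Set β := fun k =>
    {c | rv k.1 b c ∧ ¬ Leaf rv c ∧ ∃ w', Wt rv c w' ∧ T k.1 w' k.2}
  have hbij : ∀ k, ∃ s : β → α, BijOn s (A' k) (A k) := by
    rintro ⟨i, w⟩
    by_cases hV : Valid π x ((i, w) :: L)
    · refine exists_bijOn_of_infinite (hu.infinite hL ha hV) ?_
      by_cases hw1 : w = 1
      · refine (hv.infinite hL' hb (hVL'.dummy i)).mono ?_
        rintro c ⟨h1, h2, h3⟩
        refine ⟨h1, h2, 1, h3, Or.inr ⟨hw1, ?_⟩⟩
        rintro ⟨w0, _, h5⟩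
        simp only [E] at h5
        omega
      · have hR : Real π x ((i, w) :: L) := hV.real hw1
        have hR' : Valid π y ((i, E w) :: L') := by
          have := (hR.ext hγ).valid
          rw [hext hR.tail]
          exact this
        refine (hv.infinite hL' hb hR').mono ?_
        rintro c ⟨h1, h2, h3⟩
        exact ⟨h1, h2, E w, h3, Or.inl ⟨hR, rfl⟩⟩
    · have h1 : A (i, w) = ∅ := by
        rw [eq_empty_iff_forall_notMem]
        rintro d ⟨h1, h2, h3⟩
        exact hV (hu.valid_of_addr (L := (i, w) :: L) ⟨h3, a, h1, hL⟩ h2)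
      have h2 : A' (i, w) = ∅ := by
        rw [eq_empty_iff_forall_notMem]
        rintro d ⟨_, _, w', _, h4⟩
        exact hV (hT3 _ _ _ h4)
      rw [h1, h2]
      exact ⟨fun _ => a, bijOn_empty _⟩
  choose s hs using hbij
  obtain ⟨su, hsu1, hsu2⟩ := hu.wt_head hL
  obtain ⟨sv, hsv1, hsv2⟩ := hv.wt_head hL'
  have hcard : su.card ≤ sv.card ∧ (su.card = 0 → sv.card = 0) := by
    rw [hsu1, hsv1]
    cases L with
    | nil =>
      cases L' with
      | nil => simp [hw]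
      | cons l' L' => simp at hlen
    | cons l L =>
      cases L' with
      | nil => simp at hlen
      | cons l' L' =>
        have h1 := hVL.one_le
        have h2 := hVL'.one_le
        simp only [hw]
        refine ⟨?_, by omega⟩
        by_cases hl : l.2 = 1
        · omega
        · have h3 := hext (hVL.real hl)
          simp only [ext, List.cons.injEq] at h3
          have h4 := lt_cons (γ L.length) (x L.length) (l.2 - 2)
          rw [h3.1]
          simp only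
          omega
  obtain ⟨f, hf1, hf2⟩ := exists_surjOn_of_card a su sv hcard.1 hcard.2
  have hk : ∀ i c, rv i b c → ¬ Leaf rv c → ∃ w, c ∈ A' (i, w) := by
    intro i c h1 h2
    obtain ⟨w', hw'⟩ := hv.exists_wt h2
    obtain ⟨w, hw⟩ := hT1 i w'
    exact ⟨w, h1, h2, w', hw', hw⟩
  have hk2 : ∀ k k' c, c ∈ A' k → c ∈ A' k' → k = k' := by
    rintro ⟨i, w⟩ ⟨j, w2⟩ c ⟨h1, _, w', h3, h4⟩ ⟨h5, _, w'', h7, h8⟩
    obtain ⟨h9, _⟩ := hv.uniq _ _ _ _ _ h1 h5
    simp only at h9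
    subst h9
    rw [← h3.unique h7] at h8
    have h10 : w = w2 := hT2 _ _ _ _ h4 h8
    rw [h10]
  have hk3 : ∀ k k' d, d ∈ A k → d ∈ A k' → k = k' := by
    rintro ⟨i, w⟩ ⟨j, w2⟩ c ⟨h1, _, h3⟩ ⟨h5, _, h7⟩
    exact Prod.ext (hu.uniq _ _ _ _ _ h1 h5).1 (h3.unique h7)
  let σ : β → α := fun c => if h : ∃ k, c ∈ A' k then s h.choose c else f c
  have hσ1 : ∀ k c, c ∈ A' k → σ c = s k c := by
    intro k c hc
    have h : ∃ k, c ∈ A' k := ⟨k, hc⟩
    simp only [σ, dif_pos h]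
    rw [hk2 _ _ _ h.choose_spec hc]
  have hσ2 : ∀ c, Leaf rv c → σ c = f c := by
    intro c hc
    have h : ¬ ∃ k, c ∈ A' k := by
      rintro ⟨k, _, h2, _⟩
      exact h2 hc
    simp only [σ, dif_neg h]
  refine ⟨σ, fun i c hc => ?_, fun i d hd => ?_, fun i j c c' hc hc' hl hl' hcc => ?_⟩
  · by_cases hl : Leaf rv c
    · have hi := hv.colour_leaf hc hl
      subst hi
      rw [hσ2 c hl]
      have h1 : f c ∈ su := hf1 ((hsv2 c).2 ⟨hc, hl⟩)
      obtain ⟨h2, h3⟩ := (hsu2 _).1 h1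
      exact ⟨h2, Or.inl ⟨hl, h3⟩⟩
    · obtain ⟨w, hw⟩ := hk i c hc hl
      rw [hσ1 _ _ hw]
      obtain ⟨h1, h2, h3⟩ := (hs (i, w)).mapsTo hw
      obtain ⟨_, _, w', h4, h5⟩ := hw
      refine ⟨h1, Or.inr ⟨hl, h2, (i, w) :: L, (i, w') :: L', ⟨h3, a, h1, hL⟩, ⟨h4, b, hc, hL'⟩,
        by simp [hlen], fun hR => ?_⟩⟩
      rcases h5 with h5 | h5
      · rw [hext hR.tail, h5.2]
        rfl
      · have := hR.1 (i, w) (by simp)
        have h6 : w = 1 := h5.1
        simp only at this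
        omega
  · by_cases hl : Leaf ru d
    · have hi := hu.colour_leaf hd hl
      subst hi
      obtain ⟨c, hc1, hc2⟩ := hf2 ((hsu2 d).2 ⟨hd, hl⟩)
      obtain ⟨h2, h3⟩ := (hsv2 _).1 hc1
      exact ⟨c, h2, by rw [hσ2 c h3, hc2]⟩
    · obtain ⟨w, hw⟩ := hu.exists_wt hl
      obtain ⟨c, hc1, hc2⟩ := (hs (i, w)).surjOn (show d ∈ A (i, w) from ⟨hd, hl, hw⟩)
      exact ⟨c, hc1.1, by rw [hσ1 _ _ hc1, hc2]⟩
  · obtain ⟨w, hw⟩ := hk i c hc hl
    obtain ⟨w2, hw2⟩ := hk j c' hc' hl'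
    rw [hσ1 _ _ hw, hσ1 _ _ hw2] at hcc
    have h1 := (hs (i, w)).mapsTo hw
    have h2 := (hs (j, w2)).mapsTo hw2
    rw [← hcc] at h2
    have h3 := hk3 _ _ _ h1 h2
    rw [← h3] at hw2 hcc
    exact (hs (i, w)).injOn hw hw2 hcc

end Pool.Agent.P.MP_44948e_lc
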