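import Pool.Agent.P.MP_44948e_lc.Match

set_option autoImplicit false

namespace Pool.Agent.P.MP_44948e_lc

open Function Set

/-- Potential points of the canonical models: a node, or a leaf below a node. -/
abbrev Pt : Type := List ((Bool × ℕ) × ℕ) × Option ℕ

/-- The coloured parent relation between potential points. -/
def prel (i : Bool) (p q : Pt) : Prop :=
  p.2 = none ∧ ((∃ w c, q = (((i, w), c) :: p.1, none)) ∨ (i = false ∧ ∃ j, q = (p.1, some j)))

/-- The points of the canonical model for a set `V` of valid addresses. -/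
def Good (V : List (Bool × ℕ) → Prop) (p : Pt) : Prop :=
  V (p.1.map Prod.fst) ∧ ∀ j, p.2 = some j → j < hw (p.1.map Prod.fst)

/-- The canonical model. -/
def crel (V : List (Bool × ℕ) → Prop) (i : Bool) (p q : {p : Pt // Good V p}) : Prop :=
  prel i p.1 q.1

variable {π : (ℕ → ℕ) → (ℕ → Bool) × (ℕ → Bool)} {x : ℕ → Bool}

theorem good_node {V : List (Bool × ℕ) → Prop} {N : List ((Bool × ℕ) × ℕ)}
    (h : V (N.map Prod.fst)) : Good V (N, none) := ⟨h, by simp⟩

theorem crel_leaf_iff (p : {p : Pt // Good (Valid π x) p}) :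
    Leaf (crel (Valid π x)) p ↔ p.1.2 ≠ none := by
  constructor
  · intro h hp
    refine h false ⟨(((false, 1), 0) :: p.1.1, none), good_node (p.2.1.dummy false)⟩ ?_
    exact ⟨hp, Or.inl ⟨1, 0, rfl⟩⟩
  · intro h i c hc
    exact h hc.1

theorem crel_root_iff (p : {p : Pt // Good (Valid π x) p}) :
    Root (crel (Valid π x)) p ↔ p.1 = ([], none) := by
  obtain ⟨⟨N, o⟩, hp⟩ := p
  constructor
  · intro h
    cases o with
    | some j =>
      exact absurd ⟨rfl, Or.inr ⟨rfl, j, rfl⟩⟩ (h false ⟨(N, none), good_node hp.1⟩)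
    | none =>
      cases N with
      | nil => rfl
      | cons l N =>
        obtain ⟨⟨i, w⟩, c⟩ := l
        exact absurd ⟨rfl, Or.inl ⟨w, c, rfl⟩⟩ (h i ⟨(N, none), good_node (Valid.tail hp.1)⟩)
  · intro h i b hb
    simp only at h
    rcases hb.2 with ⟨w, c, h1⟩ | ⟨_, j, h1⟩
    · simp only [h] at h1
      simp at h1
    · simp only [h] at h1
      simp at h1

theorem crel_wt (N : List ((Bool × ℕ) × ℕ)) (h : Good (Valid π x) (N, none)) :
    Wt (crel (Valid π x)) ⟨(N, none), h⟩ (hw (N.map Prod.fst)) := by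
  classical
  let g : Fin (hw (N.map Prod.fst)) → {p : Pt // Good (Valid π x) p} := fun j =>
    ⟨(N, some j.1), h.1, fun j' hj' => by
      simp only [Option.some.injEq] at hj'
      rw [← hj']
      exact j.2⟩
  have hg : Injective g := by
    intro j j' hj
    simp only [g, Subtype.mk.injEq, Prod.mk.injEq, Option.some.injEq, true_and] at hj
    exact Fin.ext hj
  refine ⟨Finset.univ.image g, by rw [Finset.card_image_of_injective _ hg]; simp, fun b => ?_⟩
  rw [crel_leaf_iff]
  simp only [Finset.mem_image, Finset.mem_univ, true_and]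
  constructor
  · rintro ⟨j, rfl⟩
    exact ⟨⟨rfl, Or.inr ⟨rfl, j.1, rfl⟩⟩, by simp [g]⟩
  · rintro ⟨h1, h2⟩
    rcases h1.2 with ⟨w, c, h3⟩ | ⟨_, j, h3⟩
    · rw [h3] at h2
      exact absurd rfl h2
    · have h4 := b.2.2 j (by rw [h3])
      rw [h3] at h4
      exact ⟨⟨j, h4⟩, Subtype.ext h3.symm⟩

theorem crel_addr : ∀ (N : List ((Bool × ℕ) × ℕ)) (h : Good (Valid π x) (N, none)),
    Addr (crel (Valid π x)) (N.map Prod.fst) ⟨(N, none), h⟩
  | [], _ => (crel_root_iff _).2 rfl
  | ((_, w), c) :: N, h =>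
      ⟨crel_wt _ h, ⟨(N, none), good_node (Valid.tail h.1)⟩, ⟨rfl, Or.inl ⟨w, c, rfl⟩⟩,
        crel_addr N _⟩

theorem crel_uniq (i j : Bool) (a b c : {p : Pt // Good (Valid π x) p})
    (h1 : crel (Valid π x) i a c) (h2 : crel (Valid π x) j b c) : i = j ∧ a = b := by
  obtain ⟨⟨N1, o1⟩, ha⟩ := a
  obtain ⟨⟨N2, o2⟩, hb⟩ := b
  obtain ⟨h3, h4⟩ := h1
  obtain ⟨h5, h6⟩ := h2
  simp only at h3 h4 h5 h6
  subst h3 h5
  rcases h4 with ⟨w, c1, h4⟩ | ⟨h4, k, h4'⟩ <;> rcases h6 with ⟨w', c2, h6⟩ | ⟨h6, k', h6'⟩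
  · rw [h4] at h6
    simp only [Prod.mk.injEq, List.cons.injEq, and_true] at h6
    exact ⟨h6.1.1.1, by simp [h6.2]⟩
  · rw [h4] at h6'
    simp at h6'
  · rw [h4'] at h6
    simp at h6
  · rw [h4'] at h6'
    simp only [Prod.mk.injEq] at h6'
    exact ⟨h4.trans h6.symm, by simp [h6'.1]⟩

theorem ax_crel : Ax (crel (Valid π x)) (Valid π x) := by
  classical
  have hnode : ∀ a : {p : Pt // Good (Valid π x) p}, ¬ Leaf (crel (Valid π x)) a →
      Addr (crel (Valid π x)) (a.1.1.map Prod.fst) a := by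
    rintro ⟨⟨N, o⟩, ha⟩ hl
    rw [crel_leaf_iff, not_not] at hl
    simp only at hl
    subst hl
    exact crel_addr N ha
  have huniq : ∀ (L L' : List (Bool × ℕ)) (a : {p : Pt // Good (Valid π x) p}),
      Addr (crel (Valid π x)) L a → Addr (crel (Valid π x)) L' a → L = L' := by
    intro L
    induction L with
    | nil =>
      intro L' a h h'
      cases L' with
      | nil => rfl
      | cons l' L' =>
        obtain ⟨_, b, hb, _⟩ := h'
        exact absurd hb (h _ _)
    | cons l L ih =>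
      intro L' a h h'
      cases L' with
      | nil =>
        obtain ⟨_, b, hb, _⟩ := h
        exact absurd hb (h' _ _)
      | cons l' L' =>
        obtain ⟨w1, b, hb, hL⟩ := h
        obtain ⟨w2, b', hb', hL'⟩ := h'
        obtain ⟨h1, h2⟩ := crel_uniq _ _ _ _ _ hb hb'
        subst h2
        rw [ih L' b hL hL', Prod.ext h1 (w1.unique w2)]
  refine ⟨⟨⟨([], none), good_node trivial⟩, fun a => ?_⟩, crel_uniq, fun a ha => ?_,
    fun a ha => ?_, fun a L i w h1 h2 h3 s => ?_⟩
  · rw [crel_root_iff, Subtype.ext_iff]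
  · exact ⟨_, hnode a ha, a.2.1⟩
  · obtain ⟨⟨N, o⟩, hp⟩ := a
    rw [crel_leaf_iff] at ha
    cases o with
    | none => exact absurd rfl ha
    | some j =>
      refine ⟨⟨(N, none), good_node hp.1⟩, ⟨rfl, Or.inr ⟨rfl, j, rfl⟩⟩, ?_⟩
      rw [crel_root_iff]
      intro h
      simp only [Prod.mk.injEq, and_true] at h
      have := hp.2 j rfl
      simp [h, hw] at this
  · have hL := huniq _ _ _ h1 (hnode a h2)
    subst hL
    rw [crel_leaf_iff, not_not] at h2
    let g : ℕ → {p : Pt // Good (Valid π x) p} := fun c =>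
      ⟨(((i, w), c) :: a.1.1, none), good_node h3⟩
    have hg : Injective g := by
      intro c c' hc
      simpa [g] using hc
    obtain ⟨b, ⟨c, rfl⟩, hb⟩ := (infinite_range_of_injective hg).exists_notMem_finset s
    refine ⟨g c, hb, ⟨h2, Or.inl ⟨w, c, rfl⟩⟩, ?_, ?_⟩
    · rw [crel_leaf_iff]
      simp [g]
    · exact crel_wt _ _

theorem infinite_good : {p : Pt | Good (Valid π x) p}.Infinite := by
  refine infinite_of_injective_forall_mem
    (f := fun c : ℕ => (([((false, 1), c)], none) : Pt)) ?_ ?_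
  · intro c c' hc
    simpa using hc
  · intro c
    exact good_node (Valid.dummy (L := []) trivial false)

end Pool.Agent.P.MP_44948e_lc
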