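import Mathlib

set_option autoImplicit false

namespace Pool.Agent.P.MP_44948e_lc

open Function Set

section Defs

variable {α : Type} (r : Bool → α → α → Prop)

/-- `a` has no parent. -/
def Root (a : α) : Prop := ∀ i b, ¬ r i b a

/-- `a` has no child. -/
def Leaf (a : α) : Prop := ∀ i c, ¬ r i a c

/-- `a` has exactly `w` leaf children (of colour `false`). -/
def Wt (a : α) (w : ℕ) : Prop :=
  ∃ s : Finset α, s.card = w ∧ ∀ b, b ∈ s ↔ (r false a b ∧ Leaf r b)

/-- The list of labels (colour, weight) from `a` up to the root. -/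
def Addr : List (Bool × ℕ) → α → Prop
  | [], a => Root r a
  | l :: L, a => Wt r a l.2 ∧ ∃ b, r l.1 b a ∧ Addr L b

/-- The conditions defining the class of trees attached to a set `V` of valid addresses. -/
structure Ax (V : List (Bool × ℕ) → Prop) : Prop where
  root : ∃ ρ, ∀ a, Root r a ↔ a = ρ
  uniq : ∀ i j a b c, r i a c → r j b c → i = j ∧ a = b
  node : ∀ a, ¬ Leaf r a → ∃ L, Addr r L a ∧ V L
  leaf : ∀ a, Leaf r a → ∃ b, r false b a ∧ ¬ Root r b
  many : ∀ a L i w, Addr r L a → ¬ Leaf r a → V ((i, w) :: L) →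
    ∀ s : Finset α, ∃ b, b ∉ s ∧ r i a b ∧ ¬ Leaf r b ∧ Wt r b w

end Defs

section Basic

variable {α : Type} {r : Bool → α → α → Prop} {V : List (Bool × ℕ) → Prop}

theorem Wt.unique {a : α} {w w' : ℕ} (h : Wt r a w) (h' : Wt r a w') : w = w' := by
  obtain ⟨s, hs, h1⟩ := h
  obtain ⟨t, ht, h2⟩ := h'
  have : s = t := by
    ext b
    rw [h1, h2]
  rw [← hs, ← ht, this]

theorem Addr.unique (hA : Ax r V) :
    ∀ (L L' : List (Bool × ℕ)) (a : α), Addr r L a → Addr r L' a → L = L'
  | [], [], _, _, _ => rfl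
  | [], l :: L, a, h, h' => by
      obtain ⟨_, b, hb, _⟩ := h'
      exact absurd hb (h _ _)
  | l :: L, [], a, h, h' => by
      obtain ⟨_, b, hb, _⟩ := h
      exact absurd hb (h' _ _)
  | l :: L, l' :: L', a, h, h' => by
      obtain ⟨w1, b, hb, hL⟩ := h
      obtain ⟨w2, b', hb', hL'⟩ := h'
      obtain ⟨h1, h2⟩ := hA.uniq _ _ _ _ _ hb hb'
      subst h2
      have := Addr.unique hA L L' b hL hL'
      rw [this, Prod.ext h1 (w1.unique w2)]

theorem not_leaf_of_rel {i : Bool} {a b : α} (h : r i a b) : ¬ Leaf r a := fun hl => hl _ _ h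

theorem not_root_of_rel {i : Bool} {a b : α} (h : r i a b) : ¬ Root r b := fun hl => hl _ _ h

theorem acc_of_addr (hA : Ax r V) :
    ∀ (L : List (Bool × ℕ)) (a : α), Addr r L a → Acc (fun b c => ∃ i, r i b c) a
  | [], a, h => ⟨_, fun b ⟨i, hb⟩ => absurd hb (h _ _)⟩
  | l :: L, a, h => by
      obtain ⟨_, b, hb, hL⟩ := h
      refine ⟨_, fun c ⟨i, hc⟩ => ?_⟩
      obtain ⟨_, h2⟩ := hA.uniq _ _ _ _ _ hb hc
      subst h2
      exact acc_of_addr hA L b hL

theorem Ax.wf (hA : Ax r V) : WellFounded (fun b c => ∃ i, r i b c) := by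
  refine ⟨fun a => ⟨_, fun b ⟨i, hb⟩ => ?_⟩⟩
  obtain ⟨L, hL, _⟩ := hA.node b (not_leaf_of_rel hb)
  exact acc_of_addr hA L b hL

theorem Wt.not_leaf {a : α} {w : ℕ} (h : Wt r a w) (hw : 1 ≤ w) : ¬ Leaf r a := by
  obtain ⟨s, hs, h1⟩ := h
  obtain ⟨b, hb⟩ : s.Nonempty := Finset.card_pos.mp (by omega)
  exact not_leaf_of_rel ((h1 b).1 hb).1

end Basic

section Transport

variable {α β : Type} {r : Bool → α → α → Prop} (e : β ≃ α)

theorem root_comp (a : β) : Root (fun i a b => r i (e a) (e b)) a ↔ Root r (e a) := by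
  constructor
  · intro h i b hb
    exact h i (e.symm b) (by simpa using hb)
  · intro h i b hb
    exact h i _ hb

theorem leaf_comp (a : β) : Leaf (fun i a b => r i (e a) (e b)) a ↔ Leaf r (e a) := by
  constructor
  · intro h i b hb
    exact h i (e.symm b) (by simpa using hb)
  · intro h i b hb
    exact h i _ hb

theorem wt_comp (a : β) (w : ℕ) : Wt (fun i a b => r i (e a) (e b)) a w ↔ Wt r (e a) w := by
  constructor
  · rintro ⟨s, hs, h⟩
    refine ⟨s.map e.toEmbedding, by simpa using hs, fun b => ?_⟩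
    rw [Finset.mem_map_equiv, h, leaf_comp]
    simp
  · rintro ⟨s, hs, h⟩
    refine ⟨s.map e.symm.toEmbedding, by simpa using hs, fun b => ?_⟩
    rw [Finset.mem_map_equiv, h, leaf_comp]
    simp

theorem addr_comp : ∀ (L : List (Bool × ℕ)) (a : β),
    Addr (fun i a b => r i (e a) (e b)) L a ↔ Addr r L (e a)
  | [], a => root_comp e a
  | l :: L, a => by
      simp only [Addr]
      rw [wt_comp]
      refine and_congr Iff.rfl ⟨?_, ?_⟩
      · rintro ⟨b, hb, hL⟩
        exact ⟨e b, hb, (addr_comp L b).1 hL⟩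
      · rintro ⟨b, hb, hL⟩
        exact ⟨e.symm b, by simpa using hb, (addr_comp L _).2 (by simpa using hL)⟩

theorem Ax.comp {V : List (Bool × ℕ) → Prop} (hA : Ax r V) :
    Ax (fun i a b => r i (e a) (e b)) V where
  root := by
    obtain ⟨ρ, hρ⟩ := hA.root
    refine ⟨e.symm ρ, fun a => ?_⟩
    rw [root_comp, hρ, Equiv.eq_symm_apply]
  uniq := by
    intro i j a b c h1 h2
    obtain ⟨h3, h4⟩ := hA.uniq _ _ _ _ _ h1 h2
    exact ⟨h3, e.injective h4⟩
  node := by
    intro a ha
    rw [leaf_comp] at ha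
    obtain ⟨L, hL, hV⟩ := hA.node _ ha
    exact ⟨L, (addr_comp e L a).2 hL, hV⟩
  leaf := by
    intro a ha
    rw [leaf_comp] at ha
    obtain ⟨b, hb, hr⟩ := hA.leaf _ ha
    exact ⟨e.symm b, by simpa using hb, by rw [root_comp]; simpa using hr⟩
  many := by
    intro a L i w h1 h2 h3 s
    rw [addr_comp] at h1
    rw [leaf_comp] at h2
    obtain ⟨b, hb, hr, hl, hw⟩ := hA.many _ L i w h1 h2 h3 (s.map e.toEmbedding)
    refine ⟨e.symm b, ?_, by simpa using hr, ?_, ?_⟩
    · rwa [Finset.mem_map_equiv] at hb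
    · rw [leaf_comp]; simpa using hl
    · rw [wt_comp]; simpa using hw

end Transport

section Surj

variable {α β : Type} {ru : Bool → α → α → Prop} {rv : Bool → β → β → Prop}
  {U V : List (Bool × ℕ) → Prop}

/-- Level-by-level construction of an epimorphism from local matchings. -/
theorem exists_epi (hu : Ax ru U) (hv : Ax rv V) (Z : β → α → Prop)
    (h0 : ∀ b a, Root rv b → Root ru a → Z b a)
    (hstep : ∀ b a, Z b a → ∃ σ : β → α,
      (∀ i c, rv i b c → ru i a (σ c) ∧ Z c (σ c)) ∧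
      (∀ i d, ru i a d → ∃ c, rv i b c ∧ σ c = d) ∧
      (∀ i j c c', rv i b c → rv j b c' → ¬ Leaf rv c → ¬ Leaf rv c' → σ c = σ c' → c = c')) :
    ∃ h : β → α, Surjective h ∧ ∀ i b c, rv i b c ↔ ru i (h b) (h c) := by
  classical
  obtain ⟨ρu, hρu⟩ := hu.root
  obtain ⟨ρv, hρv⟩ := hv.root
  have : Nonempty α := ⟨ρu⟩
  choose! σ hσ1 hσ2 hσ3 using hstep
  let F : (c : β) → ((b : β) → (∃ i, rv i b c) → α) → α := fun c ih =>
    if hc : ∃ b, ∃ i, rv i b c then σ hc.choose (ih hc.choose hc.choose_spec) c else ρu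
  let h : β → α := hv.wf.fix F
  have hroot : ∀ c, Root rv c → h c = ρu := by
    intro c hc
    have : h c = F c (fun b _ => h b) := hv.wf.fix_eq F c
    rw [this]
    simp only [F]
    rw [dif_neg]
    rintro ⟨b, i, hb⟩
    exact hc _ _ hb
  have hch : ∀ i b c, rv i b c → h c = σ b (h b) c := by
    intro i b c hc
    have : h c = F c (fun b _ => h b) := hv.wf.fix_eq F c
    rw [this]
    simp only [F]
    have hex : ∃ b, ∃ i, rv i b c := ⟨b, i, hc⟩
    rw [dif_pos hex]
    obtain ⟨j, hj⟩ := hex.choose_spec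
    rw [(hv.uniq _ _ _ _ _ hj hc).2]
  have hZ : ∀ c, Z c (h c) := by
    intro c
    induction c using hv.wf.induction with
    | _ c ih =>
      by_cases hc : Root rv c
      · rw [hroot c hc]
        exact h0 _ _ hc ((hρu _).2 rfl)
      · simp only [Root, not_forall, not_not] at hc
        obtain ⟨i, b, hb⟩ := hc
        rw [hch i b c hb]
        exact (hσ1 b (h b) (ih b ⟨i, hb⟩) i c hb).2
  have hfwd : ∀ i b c, rv i b c → ru i (h b) (h c) := by
    intro i b c hb
    rw [hch i b c hb]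
    exact (hσ1 b (h b) (hZ b) i c hb).1
  have hsurj : Surjective h := by
    intro d
    induction d using hu.wf.induction with
    | _ d ih =>
      by_cases hd : Root ru d
      · exact ⟨ρv, by rw [hroot _ ((hρv _).2 rfl), (hρu d).1 hd]⟩
      · simp only [Root, not_forall, not_not] at hd
        obtain ⟨i, a, ha⟩ := hd
        obtain ⟨b, rfl⟩ := ih a ⟨i, ha⟩
        obtain ⟨c, hc, hcd⟩ := hσ2 b (h b) (hZ b) i d ha
        exact ⟨c, by rw [hch i b c hc, hcd]⟩
  have hinj : ∀ c c', ¬ Leaf rv c → ¬ Leaf rv c' → h c = h c' → c = c' := by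
    intro c
    induction c using hv.wf.induction with
    | _ c ih =>
      intro c' hl hl' hh
      by_cases hc : Root rv c
      · by_cases hc' : Root rv c'
        · rw [(hρv c).1 hc, (hρv c').1 hc']
        · simp only [Root, not_forall, not_not] at hc'
          obtain ⟨i, b, hb⟩ := hc'
          have := hfwd i b c' hb
          rw [← hh, hroot c hc] at this
          exact absurd this ((hρu _).2 rfl _ _)
      · simp only [Root, not_forall, not_not] at hc
        obtain ⟨i, b, hb⟩ := hc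
        have h1 := hfwd i b c hb
        by_cases hc' : Root rv c'
        · rw [hh, hroot c' hc'] at h1
          exact absurd h1 ((hρu _).2 rfl _ _)
        · simp only [Root, not_forall, not_not] at hc'
          obtain ⟨j, b', hb'⟩ := hc'
          have h2 := hfwd j b' c' hb'
          rw [← hh] at h2
          have h3 := (hu.uniq _ _ _ _ _ h1 h2).2
          have h4 := ih b ⟨i, hb⟩ b' (not_leaf_of_rel hb) (not_leaf_of_rel hb') h3
          subst h4
          refine hσ3 b (h b) (hZ b) i j c c' hb hb' hl hl' ?_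
          rw [← hch i b c hb, ← hch j b c' hb', hh]
  refine ⟨h, hsurj, fun i b c => ⟨hfwd i b c, fun hr => ?_⟩⟩
  have hc : ¬ Root rv c := by
    intro hc
    rw [hroot c hc] at hr
    exact (hρu _).2 rfl _ _ hr
  simp only [Root, not_forall, not_not] at hc
  obtain ⟨j, b', hb'⟩ := hc
  have h2 := hfwd j b' c hb'
  obtain ⟨hij, h3⟩ := hu.uniq _ _ _ _ _ hr h2
  subst hij
  obtain ⟨c', hc', _⟩ := hσ2 b (h b) (hZ b) i _ hr
  have := hinj b b' (not_leaf_of_rel hc') (not_leaf_of_rel hb') h3
  rw [this]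
  exact hb'

end Surj

end Pool.Agent.P.MP_44948e_lc
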